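import Pool.Agent.N928.EA.Stm

set_option autoImplicit false

/-! # Project EA, step IND: infinitely many good vertices in disjoint subtrees -/

open MeasureTheory ProbabilityTheory

namespace Pool.Agent.N434.EAI

open Pool.Agent.N928.EA

/-- the σ-algebra of one coordinate -/
@[reducible] def cm {ι : Type} (i : ι) : MeasurableSpace (ι → Bool) :=
  MeasurableSpace.comap (fun Y : ι → Bool => Y i) inferInstance

theorem indep_coord {ι : Type} {S T : Set ι} (h : Disjoint S T) {A B : Set (ι → Bool)}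
    (hA : MeasurableSet[⨆ i ∈ S, cm i] A) (hB : MeasurableSet[⨆ i ∈ T, cm i] B) :
    unif ι (A ∩ B) = unif ι A * unif ι B := by
  have h1 : iIndepFun (fun (i : ι) (Y : ι → Bool) => Y i) (unif ι) :=
    iIndepFun_infinitePi (X := fun _ x => x) (fun _ => measurable_id)
  have h2 : iIndep (fun i : ι => cm i) (unif ι) := h1
  have h3 := indep_iSup_of_disjoint (fun i => (measurable_pi_apply i).comap_le) h2 h
  exact (Indep_iff _ _ _).1 h3 A B hA hB

theorem meas_of_dep {ι : Type} (I : Set ι) {A : Set (ι → Bool)} (hA : MeasurableSet A)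
    (h : ∀ Y Y' : ι → Bool, (∀ i ∈ I, Y i = Y' i) → (Y ∈ A → Y' ∈ A)) :
    MeasurableSet[⨆ i ∈ I, cm i] A := by
  classical
  obtain ⟨g, hg⟩ : ∃ g : (ι → Bool) → (ι → Bool), g = fun Y i => if i ∈ I then Y i else true :=
    ⟨_, rfl⟩
  have h1 : @Measurable _ _ (⨆ i ∈ I, cm i) inferInstance g := by
    refine (@measurable_pi_iff _ _ _ (⨆ i ∈ I, cm i) _ g).2 ?_
    intro i
    by_cases hi : i ∈ I
    · have h2 : (fun Y : ι → Bool => g Y i) = fun Y => Y i := by
        funext Y
        rw [hg]
        simp [hi]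
      rw [h2]
      have h3 : cm i ≤ ⨆ i ∈ I, cm i := le_iSup₂_of_le i hi le_rfl
      exact Measurable.mono (comap_measurable _) h3 le_rfl
    · have h2 : (fun Y : ι → Bool => g Y i) = fun _ => true := by
        funext Y
        rw [hg]
        simp [hi]
      rw [h2]
      exact measurable_const
  have h4 : A = g ⁻¹' A := by
    ext Y
    have e : ∀ i ∈ I, Y i = g Y i := by
      intro i hi
      rw [hg]
      simp [hi]
    exact ⟨h Y (g Y) e, h (g Y) Y fun i hi => (e i hi).symm⟩
  rw [h4]
  exact h1 hA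

theorem wj_disj {k i j : ℕ} (hij : i < j) {t : List (Fin (k + 2))} (h1 : wj k i <:+ t)
    (h2 : wj k j <:+ t) : False := by
  have h3 : wj k i <:+ wj k j := by
    refine List.suffix_of_suffix_length_le h1 h2 ?_
    simp [wj]
    omega
  unfold wj at h3
  rw [List.suffix_cons_iff] at h3
  rcases h3 with h3 | h3
  · have := congrArg List.length h3
    simp at this
    omega
  · have h4 : (1 : Fin (k + 2)) ∈ List.replicate j (0 : Fin (k + 2)) :=
      h3.subset (by simp)
    have h5 := List.eq_of_mem_replicate h4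
    exact absurd h5 (by simp)

theorem good_dep {k : ℕ} {W : Type} {H : SimpleGraph W} [H.LocallyFinite] {w : List (Fin k)}
    {h : W} {Y Y' : List (Fin k) × H.edgeSet → Bool}
    (hY : ∀ p : List (Fin k) × H.edgeSet, w <:+ p.1 → Y p = Y' p) (hg : Good H w h Y) :
    Good H w h Y' := by
  intro A h1 h2 h3
  have h4 := hg A h1 h2 h3
  have h5 : XA H Y A = XA H Y' A := by
    unfold XA
    refine Finset.sum_congr rfl fun x hx => Finset.sum_congr rfl fun y _ => ?_
    unfold yv
    split_ifs with a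
    · rw [hY (x.1, _) (h2 x hx)]
    · rfl
  rw [← h5]
  exact h4

theorem t_IND : St_IND := by
  intro k W _ H _ h₀ hw
  have hdep : ∀ (j : ℕ) (Y Y' : List (Fin (k + 2)) × H.edgeSet → Bool),
      (∀ p : List (Fin (k + 2)) × H.edgeSet, wj k j <:+ p.1 → Y p = Y' p) →
      (¬ Good H (wj k j) h₀ Y → ¬ Good H (wj k j) h₀ Y') := by
    intro j Y Y' h1 h2 h3
    exact h2 (good_dep (fun p hp => (h1 p hp).symm) h3)
  have hmeas : ∀ n r, MeasurableSet {Y : List (Fin (k + 2)) × H.edgeSet → Bool |
      ∀ j, n ≤ j → j < n + r → ¬ Good H (wj k j) h₀ Y} := by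
    intro n r
    have e : {Y : List (Fin (k + 2)) × H.edgeSet → Bool |
        ∀ j, n ≤ j → j < n + r → ¬ Good H (wj k j) h₀ Y} =
        ⋂ j : ℕ, {Y | n ≤ j → j < n + r → ¬ Good H (wj k j) h₀ Y} := by
      ext Y
      simp
    rw [e]
    refine MeasurableSet.iInter fun j => ?_
    by_cases h1 : n ≤ j ∧ j < n + r
    · have e2 : {Y : List (Fin (k + 2)) × H.edgeSet → Bool |
          n ≤ j → j < n + r → ¬ Good H (wj k j) h₀ Y} = {Y | Good H (wj k j) h₀ Y}ᶜ := by
        ext Y
        simp [h1.1, h1.2]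
      rw [e2]
      exact (hw _).1.compl
    · have e2 : {Y : List (Fin (k + 2)) × H.edgeSet → Bool |
          n ≤ j → j < n + r → ¬ Good H (wj k j) h₀ Y} = Set.univ := by
        ext Y
        simp only [Set.mem_ofPred_eq, Set.mem_univ, iff_true]
        intro h2 h3
        exact absurd ⟨h2, h3⟩ h1
      rw [e2]
      exact MeasurableSet.univ
  have hind : ∀ n r, unif (List (Fin (k + 2)) × H.edgeSet)
      {Y | ∀ j, n ≤ j → j < n + r → ¬ Good H (wj k j) h₀ Y} ≤ (1 / 2) ^ r := by
    intro n r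
    induction r with
    | zero =>
      rw [pow_zero]
      exact prob_le_one
    | succ r ih =>
      have e : {Y : List (Fin (k + 2)) × H.edgeSet → Bool |
          ∀ j, n ≤ j → j < n + (r + 1) → ¬ Good H (wj k j) h₀ Y} =
          {Y | ∀ j, n ≤ j → j < n + r → ¬ Good H (wj k j) h₀ Y} ∩
            {Y | ¬ Good H (wj k (n + r)) h₀ Y} := by
        ext Y
        simp only [Set.mem_ofPred_eq, Set.mem_inter_iff]
        constructor
        · intro h1
          exact ⟨fun j h2 h3 => h1 j h2 (by omega), h1 (n + r) (by omega) (by omega)⟩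
        · rintro ⟨h1, h2⟩ j h3 h4
          rcases Nat.lt_or_ge j (n + r) with h5 | h5
          · exact h1 j h3 h5
          · have : j = n + r := by omega
            rw [this]
            exact h2
      rw [e]
      have hdis : Disjoint {p : List (Fin (k + 2)) × H.edgeSet | ∃ j, n ≤ j ∧ j < n + r ∧
          wj k j <:+ p.1} {p | wj k (n + r) <:+ p.1} := by
        rw [Set.disjoint_left]
        rintro p ⟨j, h1, h2, h3⟩ h4
        exact wj_disj h2 h3 h4
      rw [indep_coord hdis]
      · calc _ ≤ (1 / 2 : ENNReal) ^ r * (1 / 2) := mul_le_mul' ih (hw _).2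
          _ = (1 / 2) ^ (r + 1) := by rw [pow_succ]
      · apply meas_of_dep _ (hmeas n r)
        intro Y Y' h1 h2 j h3 h4
        exact hdep j Y Y' (fun p hp => h1 p ⟨j, h3, h4, hp⟩) (h2 j h3 h4)
      · apply meas_of_dep _ (hw _).1.compl
        intro Y Y' h1 h2
        exact hdep (n + r) Y Y' (fun p hp => h1 p hp) h2
  rw [ae_all_iff]
  intro n
  rw [ae_iff]
  have h1 : ∀ r : ℕ, unif (List (Fin (k + 2)) × H.edgeSet)
      {Y | ¬ ∃ j, n ≤ j ∧ Good H (wj k j) h₀ Y} ≤ (1 / 2) ^ r := by
    intro r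
    refine le_trans (measure_mono ?_) (hind n r)
    intro Y hY j h2 _ h3
    exact hY ⟨j, h2, h3⟩
  have h2 : Filter.Tendsto (fun r : ℕ => (1 / 2 : ENNReal) ^ r) Filter.atTop (nhds 0) :=
    ENNReal.tendsto_pow_atTop_nhds_zero_of_lt_one (by
      rw [one_div]
      exact ENNReal.inv_lt_one.2 (by norm_num))
  exact le_antisymm (ge_of_tendsto' h2 h1) bot_le

end Pool.Agent.N434.EAI
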